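import Pool.Agent.Lib.MP_96faa3_co.Main

namespace Pool.Agent.Results.MP_96faa3_co.NoFiniteFamily

open Pool.Agent.Lib.MP_96faa3_co

/-- None of the classes of gammoids, strongly base-orderable matroids and base-orderable
matroids, and no class lying between the gammoids and the base-orderable matroids, is the
largest complete class avoiding a finite family of matroids. -/
theorem result (C : MatroidClass)
    (hC : C = gammoids ∨ C = stronglyBaseOrderable ∨ C = baseOrderable ∨
      (gammoids.Sub C ∧ C.Sub baseOrderable)) :
    ¬ C.FinitelyExcluded := by
  rcases hC with rfl | rfl | rfl | ⟨h1, h2⟩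
  · exact main (fun _ h => h) (fun M h => sbo_sub M (gammoids_sub M h))
  · exact main gammoids_sub sbo_sub
  · exact main (fun M h => sbo_sub M (gammoids_sub M h)) (fun _ h => h)
  · exact main h1 h2

end Pool.Agent.Results.MP_96faa3_co.NoFiniteFamily
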